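import Mathlib

/-! A lower bound for the number of coprime pairs. -/

set_option autoImplicit false

namespace Pool.Agent.Helper92.Avg

open Finset

/-- Coprime pairs in `[1,N]²` with both entries prime to 11. -/
def goodPairs (N : ℕ) : Finset (ℕ × ℕ) :=
  (Ioc 0 N ×ˢ Ioc 0 N).filter fun x => Nat.Coprime x.1 x.2 ∧ ¬ 11 ∣ x.1 ∧ ¬ 11 ∣ x.2

lemma sum_inv_sq (N : ℕ) : ∑ g ∈ Ioc 1 N, (((g : ℝ)) ^ 2)⁻¹ ≤ 3 / 4 := by
  rcases Nat.lt_or_ge N 2 with h | h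
  · have : Ioc 1 N = ∅ := by
      apply Finset.Ioc_eq_empty; omega
    rw [this]; norm_num
  · have h1 : Ioc 1 N = insert 2 (Ioc 2 N) := by
      ext x; simp only [mem_Ioc, mem_insert]; omega
    rw [h1, Finset.sum_insert (by simp)]
    have h2 := sum_Ioc_inv_sq_le_sub (α := ℝ) (k := 2) (n := N) (by norm_num) h
    have h3 : (0 : ℝ) ≤ (N : ℝ)⁻¹ := by positivity
    push_cast at h2
    norm_num
    linarith

lemma card_goodPairs (N : ℕ) : (3 / 44 : ℝ) * (N : ℝ) ^ 2 ≤ ((goodPairs N).card : ℝ) := by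
  set A := Ioc 0 N ×ˢ Ioc 0 N with hA
  have hcover : A ⊆ goodPairs N ∪ ((Ioc 1 N).biUnion (fun g => A.filter fun x => g ∣ x.1 ∧ g ∣ x.2)
      ∪ (A.filter (fun x => 11 ∣ x.1) ∪ A.filter (fun x => 11 ∣ x.2))) := by
    intro x hx
    have hx' := hx
    rw [hA, mem_product, mem_Ioc, mem_Ioc] at hx'
    simp only [mem_union, mem_biUnion, mem_filter, goodPairs, mem_Ioc]
    by_cases h1 : 11 ∣ x.1
    · right; right; left; exact ⟨hx, h1⟩
    by_cases h2 : 11 ∣ x.2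
    · right; right; right; exact ⟨hx, h2⟩
    by_cases h3 : Nat.Coprime x.1 x.2
    · left; exact ⟨hx, h3, h1, h2⟩
    · right; left
      refine ⟨Nat.gcd x.1 x.2, ⟨?_, ?_⟩, hx, Nat.gcd_dvd_left _ _, Nat.gcd_dvd_right _ _⟩
      · have h4 : Nat.gcd x.1 x.2 ≠ 1 := h3
        have h5 : 0 < Nat.gcd x.1 x.2 := Nat.gcd_pos_of_pos_left _ hx'.1.1
        omega
      · exact (Nat.gcd_le_left _ hx'.1.1).trans hx'.1.2
  have hcard := (card_le_card hcover).trans ((card_union_le _ _).trans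
    (Nat.add_le_add_left ((card_union_le _ _).trans
      (Nat.add_le_add card_biUnion_le (card_union_le _ _))) _))
  have hAc : A.card = N * N := by rw [hA, card_product, Nat.card_Ioc]; simp
  have h11a : (A.filter (fun x => 11 ∣ x.1)).card = (N / 11) * N := by
    have : A.filter (fun x => 11 ∣ x.1) = ((Ioc 0 N).filter (fun k => 11 ∣ k)) ×ˢ Ioc 0 N := by
      ext x; simp only [hA, mem_filter, mem_product]; tauto
    rw [this, card_product, Nat.Ioc_filter_dvd_card_eq_div, Nat.card_Ioc]; simp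
  have h11b : (A.filter (fun x => 11 ∣ x.2)).card = N * (N / 11) := by
    have : A.filter (fun x => 11 ∣ x.2) = Ioc 0 N ×ˢ ((Ioc 0 N).filter (fun k => 11 ∣ k)) := by
      ext x; simp only [hA, mem_filter, mem_product]; tauto
    rw [this, card_product, Nat.Ioc_filter_dvd_card_eq_div, Nat.card_Ioc]; simp
  have hg : ∀ g ∈ Ioc 1 N, ((A.filter fun x => g ∣ x.1 ∧ g ∣ x.2).card : ℝ)
      ≤ (N : ℝ) ^ 2 * ((g : ℝ) ^ 2)⁻¹ := by
    intro g hg
    have : A.filter (fun x => g ∣ x.1 ∧ g ∣ x.2)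
        = ((Ioc 0 N).filter (fun k => g ∣ k)) ×ˢ ((Ioc 0 N).filter (fun k => g ∣ k)) := by
      ext x; simp only [hA, mem_filter, mem_product]; tauto
    rw [this, card_product, Nat.Ioc_filter_dvd_card_eq_div]
    have h1 : ((N / g : ℕ) : ℝ) ≤ (N : ℝ) / g := Nat.cast_div_le
    push_cast
    calc ((N / g : ℕ) : ℝ) * ((N / g : ℕ) : ℝ) ≤ ((N : ℝ) / g) * ((N : ℝ) / g) := by gcongr
      _ = _ := by rw [← div_eq_mul_inv, div_mul_div_comm, sq, sq]
  have hR : ((A.card : ℕ) : ℝ) ≤ ((goodPairs N).card : ℝ) +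
      ((∑ g ∈ Ioc 1 N, ((A.filter fun x => g ∣ x.1 ∧ g ∣ x.2).card : ℝ)) +
        (((N / 11 : ℕ) : ℝ) * N + N * ((N / 11 : ℕ) : ℝ))) := by
    rw [h11a, h11b] at hcard
    exact_mod_cast hcard
  have hsum : (∑ g ∈ Ioc 1 N, ((A.filter fun x => g ∣ x.1 ∧ g ∣ x.2).card : ℝ))
      ≤ (N : ℝ) ^ 2 * (3 / 4) := by
    calc _ ≤ ∑ g ∈ Ioc 1 N, (N : ℝ) ^ 2 * ((g : ℝ) ^ 2)⁻¹ := Finset.sum_le_sum hg
      _ = (N : ℝ) ^ 2 * ∑ g ∈ Ioc 1 N, ((g : ℝ) ^ 2)⁻¹ := by rw [Finset.mul_sum]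
      _ ≤ _ := by
        apply mul_le_mul_of_nonneg_left (sum_inv_sq N) (by positivity)
  have h11 : ((N / 11 : ℕ) : ℝ) ≤ (N : ℝ) / 11 := by
    have := @Nat.cast_div_le ℝ _ _ _ N 11
    simpa using this
  rw [hAc] at hR
  push_cast at hR
  have hN : (0 : ℝ) ≤ N := by positivity
  nlinarith

end Pool.Agent.Helper92.Avg
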