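import Mathlib
import Pool.Agent.Helper92.Avg.Coprime

/-! A lower bound `≫ N^(d+1)` for the number of real algebraic numbers in `(0,1)` of degree
`d = e + 2` and height at most `22 N`. -/

set_option autoImplicit false

namespace Pool.Agent.Helper92.Avg

open Finset Polynomial

/-- Coefficients of the Eisenstein polynomials used for the lower bound. -/
def cf (e N : ℕ) (x : (ℕ × ℕ) × (Fin (e + 1) → ℕ)) (n : ℕ) : ℤ :=
  if n = 0 then -(11 * (x.1.1 : ℤ))
  else if h : n - 1 < e + 1 then 11 * ((x.2 ⟨n - 1, h⟩ : ℤ) + N)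
  else x.1.2

/-- The Eisenstein polynomials used for the lower bound. -/
noncomputable def ePoly (e N : ℕ) (x : (ℕ × ℕ) × (Fin (e + 1) → ℕ)) : ℤ[X] :=
  ∑ n ∈ range (e + 3), C (cf e N x n) * X ^ n

/-- Index set of the family. -/
def idx (e N : ℕ) : Finset ((ℕ × ℕ) × (Fin (e + 1) → ℕ)) :=
  goodPairs N ×ˢ Fintype.piFinset fun _ => Ioc 0 N

lemma card_idx (e N : ℕ) : (3 / 44 : ℝ) * (N : ℝ) ^ (e + 3) ≤ ((idx e N).card : ℝ) := by
  unfold idx
  rw [card_product, Fintype.card_piFinset_const, Nat.card_Ioc]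
  push_cast
  rw [Nat.sub_zero]
  have h1 := card_goodPairs N
  calc (3 / 44 : ℝ) * (N : ℝ) ^ (e + 3) = ((3 / 44 : ℝ) * (N : ℝ) ^ 2) * (N : ℝ) ^ (e + 1) := by ring
    _ ≤ _ := by gcongr

variable {e N : ℕ} {x : (ℕ × ℕ) × (Fin (e + 1) → ℕ)}

lemma mem_idx : x ∈ idx e N ↔ ((0 < x.1.1 ∧ x.1.1 ≤ N) ∧ (0 < x.1.2 ∧ x.1.2 ≤ N)) ∧
    (Nat.Coprime x.1.1 x.1.2 ∧ ¬ 11 ∣ x.1.1 ∧ ¬ 11 ∣ x.1.2) ∧ ∀ i, 0 < x.2 i ∧ x.2 i ≤ N := by
  simp only [idx, goodPairs, mem_product, mem_filter, mem_Ioc, Fintype.mem_piFinset, and_assoc]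

lemma cf_zero : cf e N x 0 = -(11 * (x.1.1 : ℤ)) := by simp [cf]

lemma cf_last : cf e N x (e + 2) = x.1.2 := by simp [cf]

lemma cf_mid (i : Fin (e + 1)) : cf e N x (i + 1) = 11 * ((x.2 i : ℤ) + N) := by
  have h : (i : ℕ) + 1 - 1 < e + 1 := by have := i.2; omega
  simp only [cf, Nat.add_eq_zero_iff, one_ne_zero, and_false, if_false]
  rw [dif_pos h]
  simp

lemma coeff_ePoly (n : ℕ) : (ePoly e N x).coeff n = if n < e + 3 then cf e N x n else 0 := by
  unfold ePoly
  rw [finsetSum_coeff]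
  simp only [coeff_C_mul_X_pow]
  by_cases h : n < e + 3
  · rw [if_pos h, Finset.sum_eq_single n]
    · simp
    · intro b _ hb
      rw [if_neg (Ne.symm hb)]
    · intro h2; rw [mem_range] at h2; exact absurd h h2
  · rw [if_neg h]
    apply Finset.sum_eq_zero
    intro b hb
    rw [mem_range] at hb
    rw [if_neg (by omega)]

lemma natDegree_ePoly (hx : x ∈ idx e N) : (ePoly e N x).natDegree = e + 2 := by
  rw [mem_idx] at hx
  apply le_antisymm
  · apply natDegree_le_iff_coeff_eq_zero.mpr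
    intro n hn
    rw [coeff_ePoly, if_neg (by omega)]
  · apply le_natDegree_of_ne_zero
    rw [coeff_ePoly, if_pos (by omega), cf_last]
    have := hx.1.2.1
    omega

lemma leadingCoeff_ePoly (hx : x ∈ idx e N) : (ePoly e N x).leadingCoeff = x.1.2 := by
  rw [leadingCoeff, natDegree_ePoly hx, coeff_ePoly, if_pos (by omega), cf_last]

lemma coprime_zero_last (hx : x ∈ idx e N) : IsCoprime (11 * (x.1.1 : ℤ)) (x.1.2 : ℤ) := by
  rw [mem_idx] at hx
  have h1 : Nat.Coprime (11 * x.1.1) x.1.2 := by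
    apply Nat.Coprime.mul_left
    · exact (Nat.Prime.coprime_iff_not_dvd (by norm_num)).mpr hx.2.1.2.2
    · exact hx.2.1.1
  have := Nat.isCoprime_iff_coprime.mpr h1
  exact_mod_cast this

lemma isPrimitive_ePoly (hx : x ∈ idx e N) : (ePoly e N x).IsPrimitive := by
  intro r hr
  rw [C_dvd_iff_dvd_coeff] at hr
  have h0 := hr 0
  have h1 := hr (e + 2)
  rw [coeff_ePoly, if_pos (by omega), cf_zero] at h0
  rw [coeff_ePoly, if_pos (by omega), cf_last] at h1
  have h2 := coprime_zero_last hx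
  exact h2.isUnit_of_dvd' ((dvd_neg).mp h0) h1

lemma eleven_dvd_cf {n : ℕ} (hn : n < e + 2) : (11 : ℤ) ∣ cf e N x n := by
  unfold cf
  split_ifs with h1 h2
  · exact ⟨-(x.1.1 : ℤ), by ring⟩
  · exact ⟨_, rfl⟩
  · omega

lemma irreducible_ePoly (hx : x ∈ idx e N) : Irreducible (ePoly e N x) := by
  have hp : Prime (11 : ℤ) := by
    rw [Int.prime_iff_natAbs_prime]; norm_num
  have hx' := mem_idx.mp hx
  apply irreducible_of_eisenstein_criterion (P := Ideal.span {(11 : ℤ)})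
  · exact (Ideal.span_singleton_prime (by norm_num)).mpr hp
  · rw [leadingCoeff_ePoly hx, Ideal.mem_span_singleton]
    intro h
    exact hx'.2.1.2.2 (by exact_mod_cast h)
  · intro n hn
    rw [degree_eq_natDegree (isPrimitive_ePoly hx).ne_zero, natDegree_ePoly hx] at hn
    have hn' : n < e + 2 := by exact_mod_cast hn
    rw [Ideal.mem_span_singleton, coeff_ePoly, if_pos (by omega)]
    exact eleven_dvd_cf hn'
  · rw [degree_eq_natDegree (isPrimitive_ePoly hx).ne_zero, natDegree_ePoly hx]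
    exact_mod_cast Nat.succ_pos _
  · rw [Ideal.span_singleton_pow, Ideal.mem_span_singleton, coeff_ePoly, if_pos (by omega), cf_zero,
      dvd_neg]
    intro h
    rw [show ((11 : ℤ)) ^ 2 = 11 * 11 by norm_num] at h
    have h2 := (mul_dvd_mul_iff_left (by norm_num : (11 : ℤ) ≠ 0)).mp h
    exact hx'.2.1.2.1 (by exact_mod_cast h2)
  · exact isPrimitive_ePoly hx

lemma exists_root (hx : x ∈ idx e N) : ∃ ξ : ℝ, ξ ∈ Set.Ioo (0 : ℝ) 1 ∧ aeval ξ (ePoly e N x) = 0 := by
  have hx' := mem_idx.mp hx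
  set f : ℝ → ℝ := fun t => aeval t (ePoly e N x) with hf
  have hcont : ContinuousOn f (Set.Icc 0 1) := by
    have : f = fun t => ((ePoly e N x).map (algebraMap ℤ ℝ)).eval t := by
      ext t; simp only [hf, eval_map_algebraMap]
    rw [this]
    exact (Polynomial.continuous _).continuousOn
  have hval : ∀ t : ℝ, f t = ∑ n ∈ range (e + 3), (cf e N x n : ℝ) * t ^ n := by
    intro t
    simp only [hf, ePoly, map_sum, map_mul, map_pow, aeval_X, aeval_C]
    rfl
  have h0 : f 0 < 0 := by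
    rw [hval, Finset.sum_range_succ']
    simp only [pow_succ, mul_zero, Finset.sum_const_zero, pow_zero, mul_one, zero_add]
    rw [cf_zero]
    have : (0 : ℝ) < x.1.1 := by exact_mod_cast hx'.1.1.1
    push_cast
    linarith
  have h1 : 0 < f 1 := by
    rw [hval, Finset.sum_range_succ', Finset.sum_range_succ]
    simp only [one_pow, mul_one]
    rw [cf_zero, show e + 1 + 1 = e + 2 by rfl, cf_last]
    have h2 : (11 : ℝ) * N ≤ ∑ n ∈ range (e + 1), (cf e N x (n + 1) : ℝ) := by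
      calc (11 : ℝ) * N ≤ ∑ n ∈ range (e + 1), (11 : ℝ) * N := by
            rw [sum_const, card_range, nsmul_eq_mul]
            push_cast
            have : (0 : ℝ) ≤ (e : ℝ) * (11 * N) := by positivity
            linarith
        _ ≤ _ := by
            apply Finset.sum_le_sum
            intro n hn
            rw [mem_range] at hn
            have := cf_mid (N := N) (x := x) (⟨n, hn⟩ : Fin (e + 1))
            simp only at this
            rw [this]
            push_cast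
            have : (0 : ℝ) ≤ x.2 ⟨n, hn⟩ := by positivity
            linarith
    have h3 : (x.1.1 : ℝ) ≤ N := by exact_mod_cast hx'.1.1.2
    have h4 : (0 : ℝ) < x.1.2 := by exact_mod_cast hx'.1.2.1
    push_cast
    linarith
  obtain ⟨ξ, hξ, hξ0⟩ := intermediate_value_Ioo (by norm_num : (0 : ℝ) ≤ 1) hcont ⟨h0, h1⟩
  exact ⟨ξ, hξ, hξ0⟩

/-- A root in `(0,1)` of the polynomial. -/
noncomputable def xi (e N : ℕ) (x : (ℕ × ℕ) × (Fin (e + 1) → ℕ)) : ℝ := by
  classical exact if hx : x ∈ idx e N then Classical.choose (exists_root hx) else 0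

lemma xi_spec (hx : x ∈ idx e N) :
    xi e N x ∈ Set.Ioo (0 : ℝ) 1 ∧ aeval (xi e N x) (ePoly e N x) = 0 := by
  unfold xi
  rw [dif_pos hx]
  exact Classical.choose_spec (exists_root hx)

lemma minpoly_xi (hx : x ∈ idx e N) :
    (ePoly e N x).map (Int.castRingHom ℚ) * C ((x.1.2 : ℚ)⁻¹) = minpoly ℚ (xi e N x) := by
  have hirr := (IsPrimitive.Int.irreducible_iff_irreducible_map_cast (isPrimitive_ePoly hx)).mp
    (irreducible_ePoly hx)
  have hroot : aeval (xi e N x) ((ePoly e N x).map (Int.castRingHom ℚ)) = 0 := by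
    have := (xi_spec hx).2
    rw [← aeval_map_algebraMap ℚ] at this
    exact this
  have h1 := minpoly.eq_of_irreducible hirr hroot
  have h2 : ((ePoly e N x).map (Int.castRingHom ℚ)).leadingCoeff = (x.1.2 : ℚ) := by
    rw [leadingCoeff_map_of_injective (Int.castRingHom ℚ).injective_int, leadingCoeff_ePoly hx]
    simp
  rw [h2] at h1
  exact h1

lemma natDegree_minpoly_xi (hx : x ∈ idx e N) : (minpoly ℚ (xi e N x)).natDegree = e + 2 := by
  have hx' := mem_idx.mp hx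
  have h4 : (x.1.2 : ℚ) ≠ 0 := by have := hx'.1.2.1; exact_mod_cast this.ne'
  rw [← minpoly_xi hx, natDegree_mul_C (inv_ne_zero h4),
    natDegree_map_eq_of_injective (Int.castRingHom ℚ).injective_int, natDegree_ePoly hx]

lemma xi_injOn : Set.InjOn (xi e N) (idx e N : Set ((ℕ × ℕ) × (Fin (e + 1) → ℕ))) := by
  intro x hx y hy hxy
  rw [Finset.mem_coe] at hx hy
  have hx' := mem_idx.mp hx
  have hy' := mem_idx.mp hy
  have h1 := minpoly_xi hx
  have h2 := minpoly_xi hy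
  rw [hxy, ← h2] at h1
  have hvx : (x.1.2 : ℚ) ≠ 0 := by have := hx'.1.2.1; exact_mod_cast this.ne'
  have hvy : (y.1.2 : ℚ) ≠ 0 := by have := hy'.1.2.1; exact_mod_cast this.ne'
  -- compare coefficients
  have hco : ∀ n, n < e + 3 → (y.1.2 : ℤ) * cf e N x n = (x.1.2 : ℤ) * cf e N y n := by
    intro n hn
    have h3 := congrArg (fun P => P.coeff n) h1
    simp only [coeff_mul_C, coeff_map, coeff_ePoly, if_pos hn] at h3
    have h4 : (y.1.2 : ℚ) * (cf e N x n : ℚ) = (x.1.2 : ℚ) * (cf e N y n : ℚ) := by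
      have h5 : ((cf e N x n : ℤ) : ℚ) * (x.1.2 : ℚ)⁻¹ = ((cf e N y n : ℤ) : ℚ) * (y.1.2 : ℚ)⁻¹ := by
        simpa using h3
      field_simp at h5
      linarith
    exact_mod_cast h4
  have h0 := hco 0 (by omega)
  rw [cf_zero, cf_zero] at h0
  have h0' : y.1.2 * x.1.1 = x.1.2 * y.1.1 := by
    have : (y.1.2 : ℤ) * x.1.1 = (x.1.2 : ℤ) * y.1.1 := by linarith
    exact_mod_cast this
  -- coprimality gives equality
  have hdvd1 : x.1.2 ∣ y.1.2 := by
    have : x.1.2 ∣ y.1.2 * x.1.1 := ⟨y.1.1, h0'⟩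
    exact (Nat.Coprime.dvd_of_dvd_mul_right hx'.2.1.1.symm this)
  have hdvd2 : y.1.2 ∣ x.1.2 := by
    have : y.1.2 ∣ x.1.2 * y.1.1 := ⟨x.1.1, h0'.symm⟩
    exact (Nat.Coprime.dvd_of_dvd_mul_right hy'.2.1.1.symm this)
  have hv : x.1.2 = y.1.2 := Nat.dvd_antisymm hdvd1 hdvd2
  have hu : x.1.1 = y.1.1 := by
    rw [← hv] at h0'
    exact Nat.eq_of_mul_eq_mul_left hx'.1.2.1 h0'
  have hw : x.2 = y.2 := by
    ext i
    have h6 := hco (i + 1) (by have := i.2; omega)
    rw [cf_mid, cf_mid, hv] at h6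
    have h7 : (y.1.2 : ℤ) ≠ 0 := by have := hy'.1.2.1; exact_mod_cast this.ne'
    have h8 := mul_left_cancel₀ h7 h6
    have h9 : (x.2 i : ℤ) = y.2 i := by linarith
    exact_mod_cast h9
  exact Prod.ext (Prod.ext hu hv) hw

lemma abs_coeff_le (hx : x ∈ idx e N) (n : ℕ) : |(ePoly e N x).coeff n| ≤ 22 * (N : ℤ) := by
  have hx' := mem_idx.mp hx
  rw [coeff_ePoly]
  split_ifs with h
  · unfold cf
    split_ifs with h1 h2
    · rw [abs_neg, abs_of_nonneg (by positivity)]
      have := hx'.1.1.2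
      omega
    · rw [abs_of_nonneg (by positivity)]
      have := (hx'.2.2 ⟨n - 1, h2⟩).2
      omega
    · rw [abs_of_nonneg (by positivity)]
      have := hx'.1.2.2
      omega
  · simp

/-- The lower bound. -/
theorem lower_bound (e N : ℕ) : ∃ F : Finset ℝ, (3 / 44 : ℝ) * (N : ℝ) ^ (e + 3) ≤ (F.card : ℝ) ∧
    ∀ ξ ∈ F, |ξ| ≤ 1 ∧ (minpoly ℚ ξ).natDegree = e + 2 ∧
      ∃ P : ℤ[X], P ≠ 0 ∧ P.natDegree ≤ e + 2 ∧ (∀ i, |P.coeff i| ≤ 22 * (N : ℤ)) ∧ aeval ξ P = 0 := by
  classical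
  refine ⟨(idx e N).image (xi e N), ?_, ?_⟩
  · rw [card_image_of_injOn xi_injOn]
    exact card_idx e N
  · intro ξ hξ
    rw [mem_image] at hξ
    obtain ⟨x, hx, rfl⟩ := hξ
    have h1 := xi_spec hx
    refine ⟨?_, natDegree_minpoly_xi hx, ePoly e N x, (isPrimitive_ePoly hx).ne_zero,
      (natDegree_ePoly hx).le, abs_coeff_le hx, h1.2⟩
    rw [abs_of_pos h1.1.1]
    exact h1.1.2.le

end Pool.Agent.Helper92.Avg
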