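import Mathlib

/-! Counting integer polynomials of bounded height with a prescribed value at a rational number. -/

set_option autoImplicit false

namespace Pool.Agent.Helper92.Avg

open Finset

/-- Integer vectors with all entries in `[-H, H]`. -/
noncomputable def box (n H : ℕ) : Finset (Fin n → ℤ) := Fintype.piFinset fun _ => Finset.Icc (-(H : ℤ)) H

lemma mem_box {n H : ℕ} {a : Fin n → ℤ} : a ∈ box n H ↔ ∀ i, |a i| ≤ (H : ℤ) := by
  simp [box, abs_le]

lemma card_residue {H q : ℕ} (hq : 0 < q) (hqH : q ≤ H) (v : ℤ) :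
    (((Icc (-(H : ℤ)) H).filter (fun x : ℤ => x ≡ v [ZMOD (q : ℤ)])).card : ℝ) ≤ 4 * H / q := by
  have hIcc : Icc (-(H : ℤ)) H = Ioc (-(H : ℤ) - 1) H := by
    ext x; simp only [mem_Icc, mem_Ioc]; omega
  have hq' : (0 : ℤ) < (q : ℤ) := by exact_mod_cast hq
  have hqR : (0 : ℝ) < q := by exact_mod_cast hq
  have hcard := Int.Ioc_filter_modEq_card (-(H : ℤ) - 1) (H : ℤ) hq' v
  rw [hIcc]
  have h1 : (((Ioc (-(H : ℤ) - 1) (H : ℤ)).filter
      (fun x : ℤ => x ≡ v [ZMOD (q : ℤ)])).card : ℤ) ≤ ⌊((2 * H + 1 : ℤ) : ℚ) / (q : ℚ)⌋ + 1 := by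
    rw [hcard]
    apply max_le
    · have e1 : (((H : ℤ) : ℚ) - (v : ℚ)) / ((q : ℤ) : ℚ)
          = (((-(H : ℤ) - 1 : ℤ) : ℚ) - (v : ℚ)) / ((q : ℤ) : ℚ) + ((2 * H + 1 : ℤ) : ℚ) / (q : ℚ) := by
        push_cast
        have : (q : ℚ) ≠ 0 := by exact_mod_cast hq.ne'
        field_simp
        ring
      rw [e1]
      have := Int.le_floor_add_floor ((((-(H : ℤ) - 1 : ℤ) : ℚ) - (v : ℚ)) / ((q : ℤ) : ℚ))
        (((2 * H + 1 : ℤ) : ℚ) / (q : ℚ))
      linarith
    · have : (0 : ℤ) ≤ ⌊((2 * H + 1 : ℤ) : ℚ) / (q : ℚ)⌋ := by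
        apply Int.floor_nonneg.mpr
        positivity
      linarith
  have h2 : ((⌊((2 * H + 1 : ℤ) : ℚ) / (q : ℚ)⌋ : ℤ) : ℝ) ≤ (2 * H + 1) / q := by
    have h3 := Int.floor_le (((2 * H + 1 : ℤ) : ℚ) / (q : ℚ))
    have h4 : (((⌊((2 * H + 1 : ℤ) : ℚ) / (q : ℚ)⌋ : ℤ) : ℚ) : ℝ)
        ≤ ((((2 * H + 1 : ℤ) : ℚ) / (q : ℚ) : ℚ) : ℝ) := by
      rw [Rat.cast_le]; exact h3
    rw [Rat.cast_intCast, Rat.cast_div, Rat.cast_intCast, Rat.cast_natCast] at h4
    refine h4.trans (le_of_eq ?_)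
    push_cast
    ring
  have h5 : ((((Ioc (-(H : ℤ) - 1) (H : ℤ)).filter
      (fun x : ℤ => x ≡ v [ZMOD (q : ℤ)])).card : ℤ) : ℝ)
      ≤ ((⌊((2 * H + 1 : ℤ) : ℚ) / (q : ℚ)⌋ + 1 : ℤ) : ℝ) := by exact_mod_cast h1
  push_cast at h5 h2
  have h6 : (((Ioc (-(H : ℤ) - 1) (H : ℤ)).filter
      (fun x : ℤ => x ≡ v [ZMOD (q : ℤ)])).card : ℝ) ≤ (2 * H + 1) / q + 1 := by linarith
  refine h6.trans ?_
  have hH1 : (1 : ℝ) ≤ H := by exact_mod_cast le_trans hq hqH
  have hqH' : (q : ℝ) ≤ H := by exact_mod_cast hqH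
  rw [div_add_one hqR.ne']
  gcongr
  linarith

/-- For coprime `p, q` with `0 < q ≤ H`, at most `(4H/q)^d` integer vectors `a` with entries in
`[-H,H]` satisfy `∑ a_i p^i q^(d-i) = m`. -/
lemma card_fiber {H q : ℕ} {p : ℤ} (hq : 0 < q) (hqH : q ≤ H) (hpq : IsCoprime p (q : ℤ)) :
    ∀ (d : ℕ) (m : ℤ),
    (((box (d + 1) H).filter (fun a : Fin (d + 1) → ℤ =>
      ∑ i : Fin (d + 1), a i * p ^ (i : ℕ) * (q : ℤ) ^ (d - (i : ℕ)) = m)).card : ℝ)
      ≤ (4 * H / q) ^ d := by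
  intro d
  induction d with
  | zero =>
    intro m
    have : ((box (0 + 1) H).filter (fun a : Fin (0 + 1) → ℤ =>
      ∑ i : Fin (0 + 1), a i * p ^ (i : ℕ) * (q : ℤ) ^ (0 - (i : ℕ)) = m)).card ≤ 1 := by
      rw [card_le_one]
      intro a ha b hb
      simp only [mem_filter] at ha hb
      have h1 := ha.2
      have h2 := hb.2
      simp at h1 h2
      ext i
      fin_cases i
      simpa [h1] using h2.symm
    simpa using this
  | succ d ih =>
    intro m
    set S := (box (d + 1 + 1) H).filter (fun a : Fin (d + 1 + 1) → ℤ =>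
      ∑ i : Fin (d + 1 + 1), a i * p ^ (i : ℕ) * (q : ℤ) ^ (d + 1 - (i : ℕ)) = m) with hS
    have hcop : IsCoprime (p ^ (d + 1)) (q : ℤ) := hpq.pow_left
    obtain ⟨u, w, huw⟩ := hcop
    -- the last coordinate lies in one residue class mod q
    set T := (Icc (-(H : ℤ)) H).filter (fun x : ℤ => x ≡ u * m [ZMOD (q : ℤ)]) with hT
    have hsplit : ∀ a : Fin (d + 1 + 1) → ℤ,
        ∑ i : Fin (d + 1 + 1), a i * p ^ (i : ℕ) * (q : ℤ) ^ (d + 1 - (i : ℕ))
        = (q : ℤ) * (∑ i : Fin (d + 1), (Fin.init a) i * p ^ (i : ℕ) * (q : ℤ) ^ (d - (i : ℕ)))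
          + a (Fin.last (d + 1)) * p ^ (d + 1) := by
      intro a
      rw [Fin.sum_univ_castSucc, Finset.mul_sum]
      congr 1
      · apply Finset.sum_congr rfl
        intro i _
        have : d + 1 - (i : ℕ) = (d - (i : ℕ)) + 1 := by have := i.2; omega
        simp only [Fin.val_castSucc, this, pow_succ, Fin.init]
        ring
      · simp
    have hmaps : ∀ a ∈ S, a (Fin.last (d + 1)) ∈ T := by
      intro a ha
      rw [hS, mem_filter, mem_box, hsplit] at ha
      rw [hT, mem_filter]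
      refine ⟨by simpa [abs_le] using ha.1 (Fin.last (d + 1)), ?_⟩
      rw [Int.modEq_iff_dvd]
      refine ⟨u * (∑ i : Fin (d + 1), (Fin.init a) i * p ^ (i : ℕ) * (q : ℤ) ^ (d - (i : ℕ)))
        - w * a (Fin.last (d + 1)), ?_⟩
      have h2 := ha.2
      calc u * m - a (Fin.last (d + 1))
          = u * m - a (Fin.last (d + 1)) * (u * p ^ (d + 1) + w * (q : ℤ)) := by rw [huw]; ring
        _ = _ := by rw [← h2]; ring
    have hle := Finset.card_le_mul_card_image_of_maps_to hmaps (⌊(4 * (H : ℝ) / q) ^ d⌋₊) ?_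
    · have hqR : (0 : ℝ) < q := by exact_mod_cast hq
      calc (S.card : ℝ) ≤ ((⌊(4 * (H : ℝ) / q) ^ d⌋₊ * T.card : ℕ) : ℝ) := by exact_mod_cast hle
        _ = (⌊(4 * (H : ℝ) / q) ^ d⌋₊ : ℝ) * (T.card : ℝ) := by push_cast; ring
        _ ≤ (4 * (H : ℝ) / q) ^ d * (4 * H / q) := by
            gcongr
            · exact Nat.floor_le (by positivity)
            · exact card_residue hq hqH _
        _ = _ := by rw [pow_succ]
    · intro t ht
      apply Nat.le_floor
      -- inject via `Fin.init`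
      have hinj : ((S.filter (fun a => a (Fin.last (d + 1)) = t)).card : ℝ)
          ≤ (((box (d + 1) H).filter (fun a : Fin (d + 1) → ℤ =>
            ∑ i : Fin (d + 1), a i * p ^ (i : ℕ) * (q : ℤ) ^ (d - (i : ℕ))
              = (m - t * p ^ (d + 1)) / q)).card : ℝ) := by
        norm_cast
        apply Finset.card_le_card_of_injOn (fun a => Fin.init a)
        · intro a ha
          simp only [coe_filter, Set.mem_ofPred_eq, hS, mem_filter, mem_box] at ha ⊢
          obtain ⟨⟨hb, hsum⟩, hlast⟩ := ha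
          refine ⟨fun i => hb i.castSucc, ?_⟩
          rw [hsplit, hlast] at hsum
          symm
          have hq0 : (q : ℤ) ≠ 0 := by exact_mod_cast hq.ne'
          rw [← hsum]
          rw [add_sub_cancel_right, Int.mul_ediv_cancel_left _ hq0]
          push_cast
          rfl
        · intro a ha b hb hab
          simp only [coe_filter, Set.mem_ofPred_eq] at ha hb
          rw [← Fin.snoc_init_self a, ← Fin.snoc_init_self b]
          simp only at hab
          rw [hab, ha.2, hb.2]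
      exact hinj.trans (ih _)

end Pool.Agent.Helper92.Avg
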