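import Mathlib

/-! The function `1 / (q² (log q)^(1+ε))`, extended to `q ≤ 1`, and convergence of
`∑ 1 / (q (log q)^(1+ε))`. -/

set_option autoImplicit false

namespace Pool.Agent.Helper92.Avg

open Finset

/-- `1 / (q² (log q)^(1+ε))` for `q ≥ 2`, and its value at `2` for `q ≤ 1`. -/
noncomputable def psi (ε : ℝ) (q : ℕ) : ℝ :=
  1 / (((max q 2 : ℕ) : ℝ) ^ 2 * (Real.log ((max q 2 : ℕ) : ℝ)) ^ (1 + ε))

/-- `1 / (q (log q)^(1+ε))` for `q ≥ 2`, and its value at `2` for `q ≤ 1`. -/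
noncomputable def phi (ε : ℝ) (q : ℕ) : ℝ :=
  1 / (((max q 2 : ℕ) : ℝ) * (Real.log ((max q 2 : ℕ) : ℝ)) ^ (1 + ε))

lemma log_max_pos (q : ℕ) : 0 < Real.log ((max q 2 : ℕ) : ℝ) := by
  apply Real.log_pos
  have : 2 ≤ max q 2 := le_max_right _ _
  have : (2 : ℝ) ≤ ((max q 2 : ℕ) : ℝ) := by exact_mod_cast this
  linarith

lemma max_pos (q : ℕ) : 0 < ((max q 2 : ℕ) : ℝ) := by
  have : 2 ≤ max q 2 := le_max_right _ _
  have : (2 : ℝ) ≤ ((max q 2 : ℕ) : ℝ) := by exact_mod_cast this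
  linarith

lemma psi_pos (ε : ℝ) (q : ℕ) : 0 < psi ε q := by
  have h1 := log_max_pos q
  have h2 := max_pos q
  unfold psi
  have := Real.rpow_pos_of_pos h1 (1 + ε)
  positivity

lemma phi_pos (ε : ℝ) (q : ℕ) : 0 < phi ε q := by
  have h1 := log_max_pos q
  have h2 := max_pos q
  unfold phi
  have := Real.rpow_pos_of_pos h1 (1 + ε)
  positivity

lemma mul_psi_le_phi (ε : ℝ) (q : ℕ) : (q : ℝ) * psi ε q ≤ phi ε q := by
  have h1 := log_max_pos q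
  have h2 := max_pos q
  have h3 := Real.rpow_pos_of_pos h1 (1 + ε)
  have h4 : (q : ℝ) ≤ ((max q 2 : ℕ) : ℝ) := by exact_mod_cast le_max_left _ _
  have h5 : phi ε q = ((max q 2 : ℕ) : ℝ) * psi ε q := by
    unfold phi psi
    field_simp
  rw [h5]
  exact mul_le_mul_of_nonneg_right h4 (psi_pos ε q).le

lemma le_psi {ε : ℝ} (hε : 0 < ε) {q' q : ℕ} (hq : 2 ≤ q) (h : q' ≤ q) :
    1 / ((q : ℝ) ^ 2 * (Real.log (q : ℝ)) ^ (1 + ε)) ≤ psi ε q' := by
  unfold psi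
  have h1 := log_max_pos q'
  have h2 := max_pos q'
  have h3 := Real.rpow_pos_of_pos h1 (1 + ε)
  have h4 : max q' 2 ≤ q := max_le h hq
  have h5 : ((max q' 2 : ℕ) : ℝ) ≤ (q : ℝ) := by exact_mod_cast h4
  apply one_div_le_one_div_of_le (by positivity)
  have h6 : Real.log ((max q' 2 : ℕ) : ℝ) ≤ Real.log (q : ℝ) := Real.log_le_log h2 h5
  have h7 : (Real.log ((max q' 2 : ℕ) : ℝ)) ^ (1 + ε) ≤ (Real.log (q : ℝ)) ^ (1 + ε) :=
    Real.rpow_le_rpow h1.le h6 (by linarith)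
  exact mul_le_mul (pow_le_pow_left₀ h2.le h5 2) h7 h3.le (by positivity)

lemma phi_antitone {ε : ℝ} (hε : 0 < ε) {m n : ℕ} (h : m ≤ n) : phi ε n ≤ phi ε m := by
  unfold phi
  have h1 := log_max_pos m
  have h2 := max_pos m
  have h3 := Real.rpow_pos_of_pos h1 (1 + ε)
  have h4 : max m 2 ≤ max n 2 := max_le_max_right 2 h
  have h5 : ((max m 2 : ℕ) : ℝ) ≤ ((max n 2 : ℕ) : ℝ) := by exact_mod_cast h4
  apply one_div_le_one_div_of_le (by positivity)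
  have h6 : Real.log ((max m 2 : ℕ) : ℝ) ≤ Real.log ((max n 2 : ℕ) : ℝ) := Real.log_le_log h2 h5
  have h7 : (Real.log ((max m 2 : ℕ) : ℝ)) ^ (1 + ε) ≤ (Real.log ((max n 2 : ℕ) : ℝ)) ^ (1 + ε) :=
    Real.rpow_le_rpow h1.le h6 (by linarith)
  exact mul_le_mul h5 h7 h3.le (by positivity)

lemma summable_phi {ε : ℝ} (hε : 0 < ε) : Summable (phi ε) := by
  rw [← summable_condensed_iff_of_nonneg (fun n => (phi_pos ε n).le)
    (fun m n _ h => phi_antitone hε h)]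
  have h1 : Summable (fun k : ℕ => (Real.log 2) ^ (-(1 + ε)) * ((k : ℝ) ^ (-(1 + ε)))) := by
    apply Summable.mul_left
    rw [Real.summable_nat_rpow]
    linarith
  refine (summable_congr_atTop ?_).mp h1
  filter_upwards [Filter.eventually_ge_atTop 1] with k hk
  have h2 : max (2 ^ k) 2 = 2 ^ k := by
    apply max_eq_left
    calc 2 = 2 ^ 1 := by norm_num
      _ ≤ 2 ^ k := Nat.pow_le_pow_right (by norm_num) hk
  unfold phi
  rw [h2]
  have hl : 0 < Real.log 2 := Real.log_pos (by norm_num)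
  have hk' : (0 : ℝ) < k := by exact_mod_cast hk
  push_cast
  rw [Real.log_pow, Real.mul_rpow hk'.le hl.le, Real.rpow_neg hl.le, Real.rpow_neg hk'.le]
  have h3 : (0 : ℝ) < 2 ^ k := by positivity
  have h4 := Real.rpow_pos_of_pos hl (1 + ε)
  have h5 := Real.rpow_pos_of_pos hk' (1 + ε)
  field_simp

/-- The sum of the series `∑ 1 / (q (log q)^(1+ε))`. -/
noncomputable def Zsum (ε : ℝ) : ℝ := ∑' q : ℕ, phi ε q

lemma sum_le_Zsum {ε : ℝ} (hε : 0 < ε) (s : Finset ℕ) :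
    ∑ q ∈ s, (q : ℝ) * psi ε q ≤ Zsum ε := by
  calc ∑ q ∈ s, (q : ℝ) * psi ε q ≤ ∑ q ∈ s, phi ε q :=
        Finset.sum_le_sum fun q _ => mul_psi_le_phi ε q
    _ ≤ Zsum ε := (summable_phi hε).sum_le_tsum s (fun q _ => (phi_pos ε q).le)

lemma Zsum_nonneg (ε : ℝ) : 0 ≤ Zsum ε := tsum_nonneg fun q => (phi_pos ε q).le

end Pool.Agent.Helper92.Avg
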