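import Mathlib
import Pool.Agent.Helper92.Avg.Count
import Pool.Agent.Helper92.Avg.Series

/-! Union bound over all fractions `p/q` with `q ≤ H` and all small nonzero values. -/

set_option autoImplicit false

namespace Pool.Agent.Helper92.Avg

open Finset

/-- The value `∑ a_i p^i q^(d-i)` of the binary form attached to `a`. -/
def form {d : ℕ} (a : Fin (d + 1) → ℤ) (p : ℤ) (q : ℕ) : ℤ :=
  ∑ i : Fin (d + 1), a i * p ^ (i : ℕ) * (q : ℤ) ^ (d - (i : ℕ))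

/-- The bad vectors: for some coprime `p, q` with `1 ≤ q ≤ H`, `|p| ≤ B q`, the form has a nonzero
value of size at most `M q`. -/
noncomputable def badSet (d H : ℕ) (B : ℝ) (M : ℕ → ℝ) : Finset (Fin (d + 1) → ℤ) :=
  (Icc 1 H).biUnion fun q =>
    ((Icc (-⌊B * q⌋) ⌊B * q⌋).filter fun p => IsCoprime p (q : ℤ)).biUnion fun p =>
      ((Icc (-⌊M q⌋) ⌊M q⌋).filter fun m => m ≠ 0).biUnion fun m =>
        (box (d + 1) H).filter fun a => form a p q = m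

lemma mem_badSet {d H : ℕ} {B : ℝ} {M : ℕ → ℝ} {a : Fin (d + 1) → ℤ} (ha : a ∈ box (d + 1) H)
    {p : ℤ} {q : ℕ} (hq1 : 1 ≤ q) (hqH : q ≤ H) (hcop : IsCoprime p (q : ℤ))
    (hp : |(p : ℝ)| ≤ B * q) (h0 : form a p q ≠ 0) (hM : |(form a p q : ℝ)| ≤ M q) :
    a ∈ badSet d H B M := by
  unfold badSet
  simp only [mem_biUnion, mem_filter, mem_Icc]
  refine ⟨q, ⟨hq1, hqH⟩, p, ⟨⟨?_, ?_⟩, hcop⟩, form a p q, ⟨⟨?_, ?_⟩, h0⟩, ha, rfl⟩
  · rw [neg_le]; apply Int.le_floor.mpr; push_cast; linarith [neg_abs_le (p : ℝ)]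
  · apply Int.le_floor.mpr; linarith [le_abs_self (p : ℝ)]
  · rw [neg_le]; apply Int.le_floor.mpr; push_cast; linarith [neg_abs_le (form a p q : ℝ)]
  · apply Int.le_floor.mpr; linarith [le_abs_self (form a p q : ℝ)]

lemma card_Icc_floor {x : ℝ} (hx : 0 ≤ x) : ((Icc (-⌊x⌋) ⌊x⌋).card : ℝ) ≤ 2 * x + 1 := by
  have h0 : 0 ≤ ⌊x⌋ := Int.floor_nonneg.mpr hx
  rw [Int.card_Icc]
  have : ((⌊x⌋ + 1 - -⌊x⌋).toNat : ℤ) = 2 * ⌊x⌋ + 1 := by
    rw [Int.toNat_of_nonneg (by linarith)]; ring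
  have h2 : (((⌊x⌋ + 1 - -⌊x⌋).toNat : ℤ) : ℝ) = 2 * (⌊x⌋ : ℝ) + 1 := by rw [this]; push_cast; ring
  rw [Int.cast_natCast] at h2
  rw [h2]
  linarith [Int.floor_le x]

lemma card_Icc_floor_ne_zero {x : ℝ} (hx : 0 ≤ x) :
    (((Icc (-⌊x⌋) ⌊x⌋).filter fun m : ℤ => m ≠ 0).card : ℝ) ≤ 2 * x := by
  have h0 : 0 ≤ ⌊x⌋ := Int.floor_nonneg.mpr hx
  have hmem : (0 : ℤ) ∈ Icc (-⌊x⌋) ⌊x⌋ := by simp [h0]
  have h1 : ((Icc (-⌊x⌋) ⌊x⌋).filter fun m : ℤ => m ≠ 0) = (Icc (-⌊x⌋) ⌊x⌋).erase 0 := by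
    ext m; simp only [mem_filter, mem_erase]; tauto
  rw [h1, card_erase_of_mem hmem]
  have h2 := card_Icc_floor hx
  have h3 : 1 ≤ (Icc (-⌊x⌋) ⌊x⌋).card := Finset.card_pos.mpr ⟨0, hmem⟩
  rw [Nat.cast_sub h3]
  push_cast
  linarith

lemma card_badSet {d H : ℕ} {B : ℝ} (hB : 1 ≤ B) {M : ℕ → ℝ} (hM : ∀ q, 0 ≤ M q) :
    ((badSet d H B M).card : ℝ) ≤
      ∑ q ∈ Icc 1 H, 6 * B * q * M q * (4 * H / q) ^ d := by
  unfold badSet
  refine le_trans (Nat.cast_le.mpr card_biUnion_le) ?_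
  push_cast
  apply Finset.sum_le_sum
  intro q hq
  rw [mem_Icc] at hq
  have hqR : (1 : ℝ) ≤ q := by exact_mod_cast hq.1
  refine le_trans (Nat.cast_le.mpr card_biUnion_le) ?_
  push_cast
  have hB' : 0 ≤ B * q := by positivity
  calc ∑ p ∈ (Icc (-⌊B * q⌋) ⌊B * q⌋).filter (fun p => IsCoprime p (q : ℤ)),
        ((((Icc (-⌊M q⌋) ⌊M q⌋).filter fun m : ℤ => m ≠ 0).biUnion fun m =>
          (box (d + 1) H).filter fun a => form a p q = m).card : ℝ)
      ≤ ∑ p ∈ (Icc (-⌊B * q⌋) ⌊B * q⌋).filter (fun p => IsCoprime p (q : ℤ)),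
          2 * M q * (4 * H / q) ^ d := by
        apply Finset.sum_le_sum
        intro p hp
        rw [mem_filter] at hp
        refine le_trans (Nat.cast_le.mpr card_biUnion_le) ?_
        push_cast
        calc ∑ m ∈ (Icc (-⌊M q⌋) ⌊M q⌋).filter (fun m : ℤ => m ≠ 0),
              (((box (d + 1) H).filter fun a => form a p q = m).card : ℝ)
            ≤ ∑ m ∈ (Icc (-⌊M q⌋) ⌊M q⌋).filter (fun m : ℤ => m ≠ 0), (4 * (H : ℝ) / q) ^ d := by
              apply Finset.sum_le_sum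
              intro m _
              exact card_fiber hq.1 hq.2 hp.2 d m
          _ = (((Icc (-⌊M q⌋) ⌊M q⌋).filter fun m : ℤ => m ≠ 0).card : ℝ) * (4 * (H : ℝ) / q) ^ d := by
              rw [sum_const, nsmul_eq_mul]
          _ ≤ 2 * M q * (4 * H / q) ^ d := by
              apply mul_le_mul_of_nonneg_right (card_Icc_floor_ne_zero (hM q)) (by positivity)
    _ = (((Icc (-⌊B * q⌋) ⌊B * q⌋).filter (fun p => IsCoprime p (q : ℤ))).card : ℝ)
          * (2 * M q * (4 * H / q) ^ d) := by rw [sum_const, nsmul_eq_mul]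
    _ ≤ (3 * B * q) * (2 * M q * (4 * H / q) ^ d) := by
        have hMq := hM q
        apply mul_le_mul_of_nonneg_right _ (by positivity)
        have h1 : (((Icc (-⌊B * q⌋) ⌊B * q⌋).filter (fun p => IsCoprime p (q : ℤ))).card : ℝ)
            ≤ ((Icc (-⌊B * (q : ℝ)⌋) ⌊B * (q : ℝ)⌋).card : ℝ) := by
          exact_mod_cast card_filter_le _ _
        have h2 := card_Icc_floor hB'
        have h3 : 1 ≤ B * q := by nlinarith
        linarith
    _ = 6 * B * q * M q * (4 * H / q) ^ d := by ring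

/-- The count of bad vectors when `M q = q^d c ψ(q) H D`. -/
lemma card_badSet_le {ε : ℝ} (hε : 0 < ε) {d H : ℕ} {B D c : ℝ} (hB : 1 ≤ B) (hD : 0 ≤ D)
    (hc : 0 ≤ c) :
    ((badSet d H B (fun q => (q : ℝ) ^ d * (c * psi ε q) * (H * D))).card : ℝ) ≤
      (6 * B * D * 4 ^ d * Zsum ε) * c * (H : ℝ) ^ (d + 1) := by
  refine (card_badSet hB (fun q => ?_)).trans ?_
  · have := (psi_pos ε q).le
    positivity
  · calc ∑ q ∈ Icc 1 H, 6 * B * (q : ℝ) * ((q : ℝ) ^ d * (c * psi ε q) * (H * D)) * (4 * H / q) ^ d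
        = ∑ q ∈ Icc 1 H, (6 * B * D * 4 ^ d * c * (H : ℝ) ^ (d + 1)) * ((q : ℝ) * psi ε q) := by
          apply Finset.sum_congr rfl
          intro q hq
          rw [mem_Icc] at hq
          have hqR : (0 : ℝ) < q := by exact_mod_cast hq.1
          rw [div_pow, mul_pow]
          field_simp
          ring
      _ = (6 * B * D * 4 ^ d * c * (H : ℝ) ^ (d + 1)) * ∑ q ∈ Icc 1 H, ((q : ℝ) * psi ε q) := by
          rw [Finset.mul_sum]
      _ ≤ (6 * B * D * 4 ^ d * c * (H : ℝ) ^ (d + 1)) * Zsum ε := by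
          apply mul_le_mul_of_nonneg_left (sum_le_Zsum hε _) (by positivity)
      _ = _ := by ring

end Pool.Agent.Helper92.Avg
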