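import Mathlib
import Pool.Agent.Helper92.Avg.Union

/-! The upper bound for the number of algebraic numbers of degree `d` and height at most `H`
which have a very good rational approximation with denominator at most `H`. -/

set_option autoImplicit false

namespace Pool.Agent.Helper92.Avg

open Finset Polynomial

lemma form_eq {d : ℕ} {P : ℤ[X]} (hP : P.natDegree ≤ d) (p : ℤ) {q : ℕ} (hq : 0 < q) :
    ((form (fun i : Fin (d + 1) => P.coeff i) p q : ℤ) : ℝ)
      = (q : ℝ) ^ d * aeval ((p : ℝ) / q) P := by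
  have hqR : (q : ℝ) ≠ 0 := by exact_mod_cast hq.ne'
  rw [aeval_eq_sum_range' (Nat.lt_succ_of_le hP), Finset.mul_sum]
  unfold form
  push_cast
  rw [Fin.sum_univ_eq_sum_range (fun i => (P.coeff i : ℝ) * (p : ℝ) ^ i * (q : ℝ) ^ (d - i)) (d + 1)]
  apply Finset.sum_congr rfl
  intro i hi
  rw [mem_range] at hi
  have hd : d = (d - i) + i := by omega
  rw [zsmul_eq_mul, div_pow]
  nth_rewrite 2 [hd]
  rw [pow_add]
  field_simp

/-- An algebraic number of degree `d ≥ 2` is not a root of a nonzero integer polynomial of degree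
at most `d` having a rational root. -/
lemma aeval_ne_zero {d : ℕ} (hd : 2 ≤ d) {ξ : ℝ} (hξ : (minpoly ℚ ξ).natDegree = d) {P : ℤ[X]}
    (hP0 : P ≠ 0) (hP : P.natDegree ≤ d) (hroot : aeval ξ P = 0) (p : ℤ) (q : ℕ) :
    aeval ((p : ℝ) / q) P ≠ 0 := by
  intro h
  set PQ : ℚ[X] := P.map (algebraMap ℤ ℚ) with hPQ
  have hPQ0 : PQ ≠ 0 := by
    rw [hPQ, Ne, Polynomial.map_eq_zero_iff (algebraMap ℤ ℚ).injective_int]; exact hP0
  have hPQd : PQ.natDegree ≤ d := (natDegree_map_le).trans hP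
  have hae : aeval ξ PQ = 0 := by rw [hPQ, aeval_map_algebraMap]; exact hroot
  have hdvd := minpoly.dvd ℚ ξ hae
  obtain ⟨Q, hQ⟩ := hdvd
  have hmin0 : minpoly ℚ ξ ≠ 0 := by
    intro h0; rw [h0] at hξ; simp at hξ; omega
  have hint : IsIntegral ℚ ξ := by
    by_contra hni
    exact hmin0 (minpoly.eq_zero hni)
  have hQ0 : Q ≠ 0 := by rintro rfl; rw [mul_zero] at hQ; exact hPQ0 hQ
  have hQd : Q.natDegree = 0 := by
    have := natDegree_mul hmin0 hQ0
    rw [← hQ] at this
    omega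
  have hrt : (PQ.eval ((p : ℚ) / q)) = 0 := by
    have h1 : ((PQ.eval ((p : ℚ) / q) : ℚ) : ℝ) = aeval ((p : ℝ) / q) P := by
      have h2 : aeval (algebraMap ℚ ℝ ((p : ℚ) / q)) PQ = algebraMap ℚ ℝ (PQ.eval ((p : ℚ) / q)) :=
        aeval_algebraMap_apply_eq_algebraMap_eval _ _
      have h3 : algebraMap ℚ ℝ ((p : ℚ) / q) = (p : ℝ) / q := by simp
      rw [h3, hPQ, aeval_map_algebraMap] at h2
      rw [h2]
      rfl
    have h4 : ((PQ.eval ((p : ℚ) / q) : ℚ) : ℝ) = 0 := by rw [h1, h]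
    exact_mod_cast h4
  rw [hQ, eval_mul, eq_C_of_natDegree_eq_zero hQd, eval_C] at hrt
  have hc : Q.coeff 0 ≠ 0 := by
    intro h0
    apply hQ0
    rw [eq_C_of_natDegree_eq_zero hQd, h0, C_0]
  have hr : (minpoly ℚ ξ).IsRoot ((p : ℚ) / q) := by
    rcases mul_eq_zero.mp hrt with h5 | h5
    · exact h5
    · exact absurd h5 hc
  have hdeg := degree_eq_one_of_irreducible_of_root (minpoly.irreducible hint) hr
  rw [degree_eq_natDegree hmin0, hξ] at hdeg
  have : d = 1 := by exact_mod_cast hdeg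
  omega

lemma abs_aeval_le {d H : ℕ} {B : ℝ} (hB : 1 ≤ B) {P : ℤ[X]} (hP : P.natDegree ≤ d)
    (hH : ∀ i, |P.coeff i| ≤ (H : ℤ)) {ξ θ : ℝ} (hξ : |ξ| ≤ B) (hθ : |θ| ≤ B)
    (hroot : aeval ξ P = 0) :
    |aeval θ P| ≤ |ξ - θ| * (H * ((d + 1) * d * B ^ d)) := by
  have h1 : aeval θ P = aeval θ P - aeval ξ P := by rw [hroot, sub_zero]
  rw [h1, aeval_eq_sum_range' (Nat.lt_succ_of_le hP), aeval_eq_sum_range' (Nat.lt_succ_of_le hP),
    ← Finset.sum_sub_distrib]
  refine (Finset.abs_sum_le_sum_abs _ _).trans ?_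
  calc ∑ i ∈ range (d + 1), |P.coeff i • θ ^ i - P.coeff i • ξ ^ i|
      ≤ ∑ i ∈ range (d + 1), |ξ - θ| * (H * (d * B ^ d)) := by
        apply Finset.sum_le_sum
        intro i hi
        rw [mem_range] at hi
        have hi' : i ≤ d := by omega
        rw [← smul_sub, zsmul_eq_mul, abs_mul]
        have h2 : |((P.coeff i : ℤ) : ℝ)| ≤ (H : ℝ) := by
          have := hH i
          exact_mod_cast this
        have h3 := abs_pow_sub_pow_le θ ξ i
        have h4 : max |θ| |ξ| ^ (i - 1) ≤ B ^ d := by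
          calc max |θ| |ξ| ^ (i - 1) ≤ B ^ (i - 1) :=
                pow_le_pow_left₀ (le_max_of_le_left (abs_nonneg _)) (max_le hθ hξ) _
            _ ≤ B ^ d := pow_le_pow_right₀ hB (by omega)
        have h5 : |θ ^ i - ξ ^ i| ≤ |ξ - θ| * (d * B ^ d) := by
          calc |θ ^ i - ξ ^ i| ≤ |θ - ξ| * i * max |θ| |ξ| ^ (i - 1) := h3
            _ ≤ |θ - ξ| * d * B ^ d := by
                gcongr
            _ = _ := by rw [abs_sub_comm]; ring
        calc |((P.coeff i : ℤ) : ℝ)| * |θ ^ i - ξ ^ i| ≤ H * (|ξ - θ| * (d * B ^ d)) := by gcongr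
          _ = _ := by ring
    _ = _ := by rw [sum_const, card_range, nsmul_eq_mul]; push_cast; ring

/-- The real polynomial with coefficient vector `a`. -/
noncomputable def polyR {d : ℕ} (a : Fin (d + 1) → ℤ) : ℝ[X] :=
  ∑ i : Fin (d + 1), C (a i : ℝ) * X ^ (i : ℕ)

lemma polyR_natDegree {d : ℕ} (a : Fin (d + 1) → ℤ) : (polyR a).natDegree ≤ d := by
  apply natDegree_sum_le_of_forall_le
  intro i _
  refine (natDegree_C_mul_X_pow_le _ _).trans ?_
  have := i.2
  omega

lemma polyR_coeffs {d : ℕ} {P : ℤ[X]} (hP : P.natDegree ≤ d) :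
    polyR (fun i : Fin (d + 1) => P.coeff i) = P.map (algebraMap ℤ ℝ) := by
  have h1 : (P.map (algebraMap ℤ ℝ)).natDegree < d + 1 :=
    Nat.lt_succ_of_le (natDegree_map_le.trans hP)
  rw [as_sum_range' (P.map (algebraMap ℤ ℝ)) (d + 1) h1]
  unfold polyR
  rw [Fin.sum_univ_eq_sum_range (fun i => C ((P.coeff i : ℤ) : ℝ) * X ^ i) (d + 1)]
  apply Finset.sum_congr rfl
  intro i _
  rw [coeff_map, C_mul_X_pow_eq_monomial]
  rfl

/-- The upper bound, with explicit constant. -/
theorem upper_bound {d : ℕ} (hd : 2 ≤ d) {R ε : ℝ} (hε : 0 < ε) :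
    ∃ C : ℝ, 0 ≤ C ∧ ∀ (H : ℕ) (c : ℝ), 0 < c → c ≤ 1 →
      ∃ F : Finset ℝ, (F.card : ℝ) ≤ C * c * (H : ℝ) ^ (d + 1) ∧
        ∀ ξ : ℝ, |ξ| ≤ R → (minpoly ℚ ξ).natDegree = d →
          (∃ P : ℤ[X], P ≠ 0 ∧ P.natDegree ≤ d ∧ (∀ i, |P.coeff i| ≤ (H : ℤ)) ∧ aeval ξ P = 0) →
          (∃ (p : ℤ) (q : ℕ), 2 ≤ q ∧ q ≤ H ∧
            |ξ - (p : ℝ) / q| ≤ c / ((q : ℝ) ^ 2 * (Real.log (q : ℝ)) ^ (1 + ε))) → ξ ∈ F := by
  set B : ℝ := |R| + psi ε 0 + 1 with hB
  have hpsi0 := psi_pos ε 0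
  have hB1 : 1 ≤ B := by have := abs_nonneg R; linarith
  set D : ℝ := (d + 1) * d * B ^ d with hD
  have hD0 : 0 ≤ D := by positivity
  refine ⟨d * (6 * B * D * 4 ^ d * Zsum ε), ?_, ?_⟩
  · have := Zsum_nonneg ε
    positivity
  intro H c hc hc1
  set M : ℕ → ℝ := fun q => (q : ℝ) ^ d * (c * psi ε q) * (H * D) with hM
  refine ⟨(badSet d H B M).biUnion fun a => (polyR a).roots.toFinset, ?_, ?_⟩
  · calc (((badSet d H B M).biUnion fun a => (polyR a).roots.toFinset).card : ℝ)
        ≤ ((∑ a ∈ badSet d H B M, (polyR a).roots.toFinset.card : ℕ) : ℝ) :=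
          Nat.cast_le.mpr card_biUnion_le
      _ ≤ ((∑ a ∈ badSet d H B M, d : ℕ) : ℝ) := by
          apply Nat.cast_le.mpr
          apply Finset.sum_le_sum
          intro a _
          exact (Multiset.toFinset_card_le _).trans ((card_roots' _).trans (polyR_natDegree a))
      _ = d * ((badSet d H B M).card : ℝ) := by
          rw [sum_const, smul_eq_mul]; push_cast; ring
      _ ≤ d * ((6 * B * D * 4 ^ d * Zsum ε) * c * (H : ℝ) ^ (d + 1)) := by
          apply mul_le_mul_of_nonneg_left _ (by positivity)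
          exact card_badSet_le hε hB1 hD0 hc.le
      _ = _ := by ring
  · rintro ξ hξR hξd ⟨P, hP0, hPd, hPH, hroot⟩ ⟨p, q, hq2, hqH, hle⟩
    rw [mem_biUnion]
    refine ⟨fun i => P.coeff i, ?_, ?_⟩
    · -- lowest terms
      obtain ⟨g, p', q', hg, hcop, hp, hqq⟩ :
          ∃ (g : ℕ) (p' : ℤ) (q' : ℕ), 0 < g ∧ IsCoprime p' (q' : ℤ) ∧ p = p' * g ∧ q = q' * g := by
        have hgpos : 0 < Int.gcd p q := Int.gcd_pos_of_ne_zero_right _ (by
          have : 0 < q := by omega
          exact_mod_cast this.ne')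
        obtain ⟨m, n, hmn, h1, h2⟩ := Int.exists_gcd_one (m := p) (n := (q : ℤ)) hgpos
        have hn : 0 ≤ n := by
          by_contra hneg
          push Not at hneg
          have h3 : (q : ℤ) < 0 := by
            rw [h2]; exact mul_neg_of_neg_of_pos hneg (by exact_mod_cast hgpos)
          omega
        lift n to ℕ using hn
        refine ⟨Int.gcd p q, m, n, hgpos, Int.isCoprime_iff_gcd_eq_one.mpr hmn, h1, ?_⟩
        exact_mod_cast h2
      have hq'pos : 0 < q' := by
        rcases Nat.eq_zero_or_pos q' with h | h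
        · rw [h] at hqq; omega
        · exact h
      have hq'q : q' ≤ q := by rw [hqq]; exact Nat.le_mul_of_pos_right _ hg
      have hfrac : (p : ℝ) / q = (p' : ℝ) / q' := by
        rw [hp, hqq]
        push_cast
        have : (g : ℝ) ≠ 0 := by exact_mod_cast hg.ne'
        have : (q' : ℝ) ≠ 0 := by exact_mod_cast hq'pos.ne'
        field_simp
      rw [hfrac] at hle
      have hle2 : |ξ - (p' : ℝ) / q'| ≤ c * psi ε q' := by
        refine hle.trans ?_
        have h3 := le_psi hε hq2 hq'q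
        calc c / ((q : ℝ) ^ 2 * (Real.log (q : ℝ)) ^ (1 + ε))
            = c * (1 / ((q : ℝ) ^ 2 * (Real.log (q : ℝ)) ^ (1 + ε))) := by ring
          _ ≤ c * psi ε q' := mul_le_mul_of_nonneg_left h3 hc.le
      have hpsi_le : psi ε q' ≤ psi ε 0 := by
        have h3 := le_psi hε (q' := 0) (q := max q' 2) (le_max_right _ _) (Nat.zero_le _)
        exact h3
      have hθ : |(p' : ℝ) / q'| ≤ B := by
        have h4 : |(p' : ℝ) / q'| ≤ |ξ| + |ξ - (p' : ℝ) / q'| := by
          have h5 := abs_sub_abs_le_abs_sub ((p' : ℝ) / q') ξ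
          rw [abs_sub_comm ξ]
          linarith
        have h6 : c * psi ε q' ≤ psi ε 0 := by
          calc c * psi ε q' ≤ 1 * psi ε 0 := by
                apply mul_le_mul hc1 hpsi_le (psi_pos ε q').le (by norm_num)
            _ = _ := by ring
        have := le_abs_self R
        linarith
      have hξB : |ξ| ≤ B := by have := le_abs_self R; linarith
      have hbox : (fun i : Fin (d + 1) => P.coeff i) ∈ box (d + 1) H := by
        rw [mem_box]; intro i; exact hPH i
      have hq'R : (0 : ℝ) < q' := by exact_mod_cast hq'pos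
      apply mem_badSet hbox (p := p') (q := q') hq'pos (hq'q.trans hqH) hcop
      · have h7 : |(p' : ℝ)| = |(p' : ℝ) / q'| * q' := by
          rw [abs_div, abs_of_pos hq'R, div_mul_cancel₀ _ hq'R.ne']
        rw [h7]
        exact mul_le_mul_of_nonneg_right hθ hq'R.le
      · intro h0
        have h8 := form_eq hPd p' hq'pos
        rw [h0] at h8
        have h9 := aeval_ne_zero hd hξd hP0 hPd hroot p' q'
        have h10 : (q' : ℝ) ^ d ≠ 0 := by positivity
        rw [Int.cast_zero] at h8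
        rcases mul_eq_zero.mp h8.symm with h | h
        · exact h10 h
        · exact h9 h
      · rw [form_eq hPd p' hq'pos, abs_mul, abs_of_pos (by positivity : (0 : ℝ) < (q' : ℝ) ^ d)]
        have h11 := abs_aeval_le hB1 hPd hPH hξB hθ hroot
        calc (q' : ℝ) ^ d * |aeval ((p' : ℝ) / q') P|
            ≤ (q' : ℝ) ^ d * (|ξ - (p' : ℝ) / q'| * (H * ((d + 1) * d * B ^ d))) := by gcongr
          _ ≤ (q' : ℝ) ^ d * ((c * psi ε q') * (H * ((d + 1) * d * B ^ d))) := by gcongr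
          _ = M q' := by simp only [hM, hD]; ring
    · rw [Multiset.mem_toFinset, polyR_coeffs hPd, mem_roots']
      refine ⟨?_, ?_⟩
      · rw [Ne, Polynomial.map_eq_zero_iff (algebraMap ℤ ℝ).injective_int]; exact hP0
      · rw [IsRoot, eval_map_algebraMap]; exact hroot

end Pool.Agent.Helper92.Avg
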