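import Mathlib
import Pool.Agent.Helper92.Avg.Upper
import Pool.Agent.Helper92.Avg.Lower

/-! Lang's inequality on average over algebraic numbers of degree `d` and height at most `H`. -/

set_option autoImplicit false

namespace Pool.Agent.Helper92.Avg

open Finset Polynomial

/-- Real algebraic numbers in `[-R, R]` of degree `d` and height at most `H`. -/
def AlgNums (d H : ℕ) (R : ℝ) : Set ℝ :=
  {ξ : ℝ | |ξ| ≤ R ∧ (minpoly ℚ ξ).natDegree = d ∧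
    ∃ P : ℤ[X], P ≠ 0 ∧ P.natDegree ≤ d ∧ (∀ i, |P.coeff i| ≤ (H : ℤ)) ∧ aeval ξ P = 0}

lemma algNums_finite (d H : ℕ) (R : ℝ) : (AlgNums d H R).Finite := by
  apply Set.Finite.subset
    ((box (d + 1) H).biUnion fun a => (polyR a).roots.toFinset).finite_toSet
  rintro ξ ⟨_, _, P, hP0, hPd, hPH, hroot⟩
  rw [Finset.mem_coe, mem_biUnion]
  refine ⟨fun i => P.coeff i, ?_, ?_⟩
  · rw [mem_box]; intro i; exact hPH i
  · rw [Multiset.mem_toFinset, polyR_coeffs hPd, mem_roots']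
    refine ⟨?_, ?_⟩
    · rw [Ne, Polynomial.map_eq_zero_iff (algebraMap ℤ ℝ).injective_int]; exact hP0
    · rw [IsRoot, eval_map_algebraMap]; exact hroot

lemma card_algNums {d H : ℕ} (hd : 2 ≤ d) (hH : 22 ≤ H) {R : ℝ} (hR : 1 ≤ R) :
    (3 / 44 : ℝ) * (1 / 44) ^ (d + 1) * (H : ℝ) ^ (d + 1) ≤ ((AlgNums d H R).ncard : ℝ) := by
  obtain ⟨e, rfl⟩ : ∃ e, d = e + 2 := ⟨d - 2, by omega⟩
  set N := H / 22 with hN
  obtain ⟨F, hF, hF2⟩ := lower_bound e N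
  have hsub : (F : Set ℝ) ⊆ AlgNums (e + 2) H R := by
    intro ξ hξ
    obtain ⟨h1, h2, P, h3, h4, h5, h6⟩ := hF2 ξ hξ
    refine ⟨h1.trans hR, h2, P, h3, h4, fun i => (h5 i).trans ?_, h6⟩
    have : 22 * N ≤ H := Nat.mul_div_le H 22
    exact_mod_cast this
  have h7 := Set.ncard_le_ncard hsub (algNums_finite _ _ _)
  rw [Set.ncard_coe_finset] at h7
  have h8 : (H : ℝ) / 44 ≤ N := by
    have h9 : H < 22 * (N + 1) := by
      have := Nat.lt_mul_div_succ H (by norm_num : 0 < 22)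
      exact this
    have h10 : 1 ≤ N := by
      rw [hN]; exact (Nat.one_le_div_iff (by norm_num)).mpr hH
    have h11 : H ≤ 44 * N := by omega
    have h12 : (H : ℝ) ≤ 44 * N := by exact_mod_cast h11
    linarith
  calc (3 / 44 : ℝ) * (1 / 44) ^ (e + 2 + 1) * (H : ℝ) ^ (e + 2 + 1)
      = (3 / 44 : ℝ) * ((H : ℝ) / 44) ^ (e + 3) := by
        rw [div_pow (H : ℝ), one_div, inv_pow]; ring
    _ ≤ (3 / 44 : ℝ) * (N : ℝ) ^ (e + 3) := by gcongr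
    _ ≤ (F.card : ℝ) := hF
    _ ≤ _ := by exact_mod_cast h7

theorem average_lang {d : ℕ} (hd : 2 ≤ d) {R : ℝ} (hR : 1 ≤ R) {ε : ℝ} (hε : 0 < ε) :
    ∃ C : ℝ, ∀ H : ℕ, 22 ≤ H → ∀ c : ℝ, 0 < c → c ≤ 1 →
      (({ξ ∈ AlgNums d H R | ∃ (p : ℤ) (q : ℕ), 2 ≤ q ∧ q ≤ H ∧
          |ξ - (p : ℝ) / q| ≤ c / ((q : ℝ) ^ 2 * (Real.log (q : ℝ)) ^ (1 + ε))}).ncard : ℝ)
        ≤ C * c * ((AlgNums d H R).ncard : ℝ) := by
  obtain ⟨C, hC0, hC⟩ := upper_bound hd (R := R) hε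
  refine ⟨C / ((3 / 44 : ℝ) * (1 / 44) ^ (d + 1)), ?_⟩
  intro H hH c hc hc1
  obtain ⟨F, hF, hF2⟩ := hC H c hc hc1
  have hsub : {ξ ∈ AlgNums d H R | ∃ (p : ℤ) (q : ℕ), 2 ≤ q ∧ q ≤ H ∧
      |ξ - (p : ℝ) / q| ≤ c / ((q : ℝ) ^ 2 * (Real.log (q : ℝ)) ^ (1 + ε))} ⊆ (F : Set ℝ) := by
    rintro ξ ⟨⟨h1, h2, h3⟩, h4⟩
    exact hF2 ξ h1 h2 h3 h4
  have h5 := Set.ncard_le_ncard hsub F.finite_toSet
  rw [Set.ncard_coe_finset] at h5
  have h6 := card_algNums hd hH hR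
  set k : ℝ := (3 / 44 : ℝ) * (1 / 44) ^ (d + 1) with hk
  have hk0 : 0 < k := by positivity
  calc _ ≤ (F.card : ℝ) := by exact_mod_cast h5
    _ ≤ C * c * (H : ℝ) ^ (d + 1) := hF
    _ = C / k * c * (k * (H : ℝ) ^ (d + 1)) := by field_simp
    _ ≤ C / k * c * ((AlgNums d H R).ncard : ℝ) := by gcongr

end Pool.Agent.Helper92.Avg
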